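import Pool.Agent.Q267.E8.Stm

set_option autoImplicit false

namespace Pool.Agent.Q187.E8

open Finset Pool.Agent.Q267.CDE Pool.Agent.Q267.MW Pool.Agent.Q267.E8

theorem du : S_DU := by
  intro p m l hp hpm
  induction l with
  | zero =>
    intro _
    have h1 : (p : R p) * lift p ((H (ZMod p) m - H (ZMod p) (m - 0)) / 2) = p * 0 := by
      apply p_mul_eq
      rw [red_lift, map_zero, Nat.sub_zero, sub_self, zero_div]
    rw [h1]
    simp
  | succ l ih =>
    intro hl
    have ih' := ih (by omega)
    obtain ⟨n, hn⟩ : ∃ n, m = l + (n + 1) := ⟨m - l - 1, by omega⟩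
    have e1 : m - l = n + 1 := by omega
    have e2 : m - (l + 1) = n := by omega
    rw [e1] at ih'
    rw [e2]
    have hp2 : 2 < p := by
      have := hp.out.two_le
      omega
    have u1 : IsUnit (((l + 1 : ℕ) : ℕ) : R p) := isUnit_nat p (l + 1) (by omega) (by omega)
    have u2 : IsUnit (((2 * (n + 1) : ℕ) : ℕ) : R p) := isUnit_nat p (2 * (n + 1)) (by omega) (by omega)
    obtain ⟨w, hw⟩ := u2.exists_right_inv
    have c1 : ((2 * (n + 1) : ℕ) : ZMod p) ≠ 0 := cast_ne p _ (by omega) (by omega)
    have hrw : red p w = (((n : ZMod p) + 1)⁻¹) / 2 := by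
      have h1 := congrArg (red p) hw
      rw [map_mul, red_nat, map_one] at h1
      push_cast at h1 c1
      have c2 : (2 : ZMod p) ≠ 0 := left_ne_zero_of_mul c1
      have c3 : (n : ZMod p) + 1 ≠ 0 := right_ne_zero_of_mul c1
      field_simp
      linear_combination h1
    have hL : (p : R p) * lift p ((H (ZMod p) m - H (ZMod p) n) / 2) =
        p * (lift p ((H (ZMod p) m - H (ZMod p) (n + 1)) / 2) + w) := by
      apply p_mul_eq
      rw [red_lift, map_add, red_lift, hrw, H_succ]
      ring
    rw [hL]
    set L := lift p ((H (ZMod p) m - H (ZMod p) (n + 1)) / 2)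
    have k1 : ((l + 1 : ℕ) : R p) * (((2 * (l + 1)).choose (l + 1) : ℕ) : R p) =
        2 * (2 * (l : R p) + 1) * (((2 * l).choose l : ℕ) : R p) := by
      have := Nat.succ_mul_centralBinom_succ l
      rw [Nat.centralBinom, Nat.centralBinom] at this
      have h2 := congrArg (Nat.cast : ℕ → R p) this
      push_cast at h2 ⊢
      exact h2
    have k2 : ((l + 1 : ℕ) : R p) * ((m.choose (l + 1) : ℕ) : R p) =
        ((n : R p) + 1) * ((m.choose l : ℕ) : R p) := by
      have := Nat.choose_succ_right_eq m l
      rw [e1] at this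
      have h2 := congrArg (Nat.cast : ℕ → R p) this
      push_cast at h2 ⊢
      linear_combination h2
    have hpc : 2 * (l : R p) + 1 = p - 2 * ((n : R p) + 1) := by
      have h3 : p = 2 * l + 2 * (n + 1) + 1 := by omega
      have h2 := congrArg (Nat.cast : ℕ → R p) h3
      push_cast at h2
      linear_combination -h2
    have hsq := p_sq p
    apply u1.mul_left_cancel
    rw [k1, ih', hpc, pow_succ (-4 : R p) l]
    push_cast at hw k2 ⊢
    linear_combination (-4) ^ l * (-4) * (1 - (p : R p) * (L + w)) * (-k2) +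
      (-4) ^ l * (m.choose l : R p) * (-2 * L) * hsq - 2 * (-4) ^ l * (m.choose l : R p) * (p : R p) * hw

end Pool.Agent.Q187.E8
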